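import Pool.Agent.Helper29.GA.RR

set_option autoImplicit false

/-! # AF algebras -/

namespace Pool.Agent.Helper29.GA

open Complex Polynomial

universe u

variable {A : Type u} [CStarAlgebra A]

/-- approximately finite dimensional: finitely many elements are near a finite dimensional *-subalgebra -/
def AF (A : Type u) [CStarAlgebra A] : Prop :=
  ∀ (F : Finset A) (ε : ℝ), 0 < ε → ∃ B : StarSubalgebra ℂ A, FiniteDimensional ℂ B ∧ ∀ x ∈ F, ∃ b ∈ B, ‖x - b‖ < ε

lemma finite_of_mem (B : StarSubalgebra ℂ A) [FiniteDimensional ℂ B] {a : A} (ha : a ∈ B) :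
    (spectrum ℂ a).Finite := by
  rcases subsingleton_or_nontrivial A with h0 | h0
  · rw [spectrum.of_subsingleton]
    exact Set.finite_empty
  have h1 : IsIntegral ℂ (⟨a, ha⟩ : B) := IsIntegral.of_finite ℂ _
  have h2 : IsIntegral ℂ a := h1.map B.subtype
  refine (minpoly ℂ a).rootSet_finite ℂ |>.subset fun z hz => ?_
  have h3 := spectrum.subset_polynomial_aeval a (minpoly ℂ a) ⟨z, hz, rfl⟩
  rw [minpoly.aeval, spectrum.zero_eq, Set.mem_singleton_iff] at h3
  rw [Polynomial.mem_rootSet]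
  exact ⟨minpoly.ne_zero h2, by simpa [aeval_def] using h3⟩

lemma finite_real {a : A} (h : (spectrum ℂ a).Finite) : (spectrum ℝ a).Finite := by
  rw [← spectrum.preimage_algebraMap ℂ]
  exact h.preimage (Complex.ofReal_injective.injOn)

theorem AF.realRankZero (h : AF A) : RealRankZero A := by
  intro x hx ε hε
  obtain ⟨B, hB, h1⟩ := h {x} ε hε
  obtain ⟨b, hb, hxb⟩ := h1 x (Finset.mem_singleton_self x)
  refine ⟨(1 / 2 : ℂ) • (b + star b), ?_, ?_, ?_⟩
  · rw [IsSelfAdjoint, star_smul, star_add, star_star, add_comm]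
    simp
  · refine finite_real (finite_of_mem B ?_)
    exact SMulMemClass.smul_mem _ (add_mem hb (star_mem hb))
  · have e1 : x - (1 / 2 : ℂ) • (b + star b) = (1 / 2 : ℂ) • ((x - b) + star (x - b)) := by
      rw [star_sub, hx.star_eq, smul_add, smul_add, smul_sub, smul_sub]
      have : x = (1 / 2 : ℂ) • x + (1 / 2 : ℂ) • x := by rw [← add_smul]; norm_num
      nth_rewrite 1 [this]
      abel
    rw [e1, norm_smul]
    have e2 : ‖(x - b) + star (x - b)‖ ≤ ‖x - b‖ + ‖x - b‖ := by
      refine (norm_add_le _ _).trans ?_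
      rw [norm_star]
    have e3 : ‖(1 / 2 : ℂ)‖ = 1 / 2 := by norm_num
    rw [e3]
    linarith

/-- unitaries of finite spectrum are exponentials -/
lemma exp_of_finite (w : unitary A) (h : (spectrum ℂ (w : A)).Finite) :
    ∃ k : selfAdjoint A, selfAdjoint.expUnitary k = w := by
  have hc : ∀ φ : ℂ → ℂ, ContinuousOn φ (spectrum ℂ (w : A)) := fun φ => h.continuousOn φ
  have hn : IsStarNormal (w : A) := inferInstance
  have hsa : IsSelfAdjoint (cfc (fun z : ℂ => ((z.arg : ℝ) : ℂ)) (w : A)) := by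
    rw [IsSelfAdjoint, ← cfc_star]
    refine cfc_congr fun z _ => ?_
    simp [Complex.conj_ofReal]
  refine ⟨⟨_, hsa⟩, ?_⟩
  ext
  rw [selfAdjoint.expUnitary_coe]
  show NormedSpace.exp (I • cfc (fun z : ℂ => ((z.arg : ℝ) : ℂ)) (w : A)) = w
  rw [← cfc_smul I _ (w : A) (hc _), ← CFC.exp_eq_normedSpace_exp (𝕜 := ℂ) (IsStarNormal.cfc_map _ _)]
  rw [← cfc_comp' _ (fun z : ℂ => I • ((z.arg : ℝ) : ℂ)) (w : A) (NormedSpace.exp_continuous.continuousOn) (hc _)]
  conv_rhs => rw [← cfc_id' ℂ (w : A)]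
  refine cfc_congr fun z hz => ?_
  have hz1 : ‖z‖ = 1 := spectrum.norm_eq_one_of_unitary w.2 hz
  have : I * z.arg = Complex.log z :=
    Complex.ext (by simp [log_re, hz1]) (by simp [log_im])
  have hz0 : z ≠ 0 := by
    intro h0
    rw [h0, norm_zero] at hz1
    exact zero_ne_one hz1
  simp only [smul_eq_mul]
  rw [this, ← Complex.exp_eq_exp_ℂ, Complex.exp_log hz0]

/-- in a finite dimensional subalgebra there is a unitary near each element which is near a unitary -/
lemma exists_unitary (B : StarSubalgebra ℂ A) [FiniteDimensional ℂ B] (u : unitary A) {b : A} (hb : b ∈ B)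
    (η : ℝ) (hη : η ≤ 1 / 16) (hub : ‖(u : A) - b‖ ≤ η) : ∃ w : unitary A, (w : A) ∈ B ∧ ‖(u : A) - w‖ ≤ 8 * η := by
  rcases subsingleton_or_nontrivial A with h0 | h0
  · refine ⟨1, B.one_mem, ?_⟩
    rw [Subsingleton.elim ((u : A) - (1 : unitary A)) 0, norm_zero]
    have := (norm_nonneg _).trans hub
    positivity
  have hη0 : 0 ≤ η := (norm_nonneg _).trans hub
  have hu1 : ‖(u : A)‖ = 1 := CStarRing.norm_coe_unitary u
  have hb1 : ‖b‖ ≤ 1 + η := by
    calc ‖b‖ = ‖(u : A) - ((u : A) - b)‖ := by congr 1; abel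
      _ ≤ ‖(u : A)‖ + ‖(u : A) - b‖ := norm_sub_le _ _
      _ ≤ 1 + η := by rw [hu1]; linarith
  set c : A := star b * b with hc
  have hcs : IsSelfAdjoint c := IsSelfAdjoint.star_mul_self b
  have hcB : c ∈ B := mul_mem (star_mem hb) hb
  have hfc := finite_of_mem B hcB
  have hcon : ∀ φ : ℝ → ℝ, ContinuousOn φ (spectrum ℝ c) := fun φ => (finite_real hfc).continuousOn φ
  have hc1 : ‖c - 1‖ ≤ 3 * η := by
    have e1 : c - 1 = star b * (b - u) + star (b - (u : A)) * u := by
      rw [hc, star_sub, mul_sub, sub_mul, Unitary.coe_star_mul_self]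
      abel
    rw [e1]
    refine (norm_add_le _ _).trans ?_
    have e2 : ‖star b * (b - u)‖ ≤ (1 + η) * η := by
      refine (norm_mul_le _ _).trans ?_
      rw [norm_star, norm_sub_rev]
      exact mul_le_mul hb1 hub (norm_nonneg _) (by positivity)
    have e3 : ‖star (b - (u : A)) * u‖ ≤ η := by
      refine (norm_mul_le _ _).trans ?_
      rw [norm_star, hu1, mul_one, norm_sub_rev]
      exact hub
    nlinarith
  have hspec : ∀ t ∈ spectrum ℝ c, |t - 1| ≤ 3 * η := by
    intro t ht
    have h1 : t - 1 ∈ spectrum ℝ (c - algebraMap ℝ A 1) := by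
      rw [← spectrum.sub_singleton_eq]
      exact ⟨t, ht, 1, rfl, rfl⟩
    rw [map_one] at h1
    have := spectrum.norm_le_norm_of_mem h1
    rw [Real.norm_eq_abs] at this
    exact this.trans hc1
  set g : ℝ → ℝ := fun t => (√t)⁻¹ with hg
  set r : A := cfc g c with hr
  have hrs : IsSelfAdjoint r := cfc_predicate g c
  have hpos : ∀ t ∈ spectrum ℝ c, 1 / 2 ≤ t := by
    intro t ht
    have := (abs_le.1 (hspec t ht)).1
    linarith
  have hrcr : r * c * r = 1 := by
    have e1 : r * c * r = cfc (fun t : ℝ => g t * t * g t) c := by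
      rw [cfc_mul _ _ c (hcon _) (hcon _), cfc_mul _ _ c (hcon _) (hcon _), cfc_id' ℝ c]
    rw [e1]
    have e2 : cfc (fun t : ℝ => g t * t * g t) c = cfc (fun _ : ℝ => (1 : ℝ)) c := by
      refine cfc_congr fun t ht => ?_
      have ht0 : 0 < t := by linarith [hpos t ht]
      have hs : √t * √t = t := Real.mul_self_sqrt ht0.le
      have hs0 : √t ≠ 0 := (Real.sqrt_pos.2 ht0).ne'
      show (√t)⁻¹ * t * (√t)⁻¹ = 1
      field_simp
      nlinarith
    rw [e2, cfc_const_one ℝ c]
  have hrB : r ∈ B := by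
    have hfr := finite_real hfc
    set P : ℝ[X] := Lagrange.interpolate hfr.toFinset (fun t => t) g with hP
    have e1 : r = cfc P.eval c := by
      refine cfc_congr fun t ht => ?_
      have h1 : t ∈ hfr.toFinset := hfr.mem_toFinset.2 ht
      exact (Lagrange.eval_interpolate_at_node (s := hfr.toFinset) (v := fun t : ℝ => t) g
        (Function.injective_id.injOn) h1).symm
    rw [e1, cfc_polynomial P c, Polynomial.aeval_eq_sum_range]
    refine sum_mem fun i _ => ?_
    have e2 : P.coeff i • c ^ i = ((P.coeff i : ℝ) : ℂ) • c ^ i := by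
      rw [Complex.coe_smul]
    rw [e2]
    exact SMulMemClass.smul_mem _ (pow_mem hcB i)
  have hr1 : ‖r - 1‖ ≤ 3 * η := by
    have e1 : r - 1 = cfc (fun t : ℝ => g t - 1) c := by
      rw [cfc_sub g (fun _ => 1) c (hcon _) (hcon _), cfc_const_one ℝ c]
    rw [e1]
    refine norm_cfc_le (by positivity) fun t ht => ?_
    have ht0 : 1 / 2 ≤ t := hpos t ht
    have h1 := hspec t ht
    have hs : √t * √t = t := Real.mul_self_sqrt (by linarith)
    have hs0 : 0 < √t := Real.sqrt_pos.2 (by linarith)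
    have hs1 : 1 / 2 ≤ √t := by
      rw [Real.le_sqrt' (by norm_num)]
      linarith
    have e2 : g t - 1 = (1 - t) / (√t * (1 + √t)) := by
      show (√t)⁻¹ - 1 = _
      field_simp
      nlinarith
    have e3 : 1 ≤ √t * (1 + √t) := by nlinarith
    rw [Real.norm_eq_abs, e2, abs_div, abs_of_pos (by positivity : 0 < √t * (1 + √t)), abs_sub_comm]
    exact (div_le_self (abs_nonneg _) e3).trans h1
  set w : A := b * r with hw
  have hww : star w * w = 1 := by
    rw [hw, star_mul, hrs.star_eq]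
    rw [← hrcr, hc]
    simp only [mul_assoc]
  have huw : ‖(u : A) - w‖ ≤ 8 * η := by
    have e1 : (u : A) - w = ((u : A) - b) - b * (r - 1) := by
      rw [hw, mul_sub, mul_one]; abel
    rw [e1]
    refine (norm_sub_le _ _).trans ?_
    have e2 : ‖b * (r - 1)‖ ≤ (1 + η) * (3 * η) := by
      refine (norm_mul_le _ _).trans ?_
      exact mul_le_mul hb1 hr1 (norm_nonneg _) (by positivity)
    nlinarith
  have hunit : IsUnit w := by
    have h1 : ‖star (u : A) * ((u : A) - w)‖ < 1 := by
      refine lt_of_le_of_lt (norm_mul_le _ _) ?_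
      rw [norm_star, hu1, one_mul]
      linarith
    have h2 := isUnit_one_sub_of_norm_lt_one h1
    have h3 : (u : A) * (1 - star (u : A) * ((u : A) - w)) = w := by
      rw [mul_sub, mul_one, ← mul_assoc, Unitary.mul_star_self_of_mem u.2, one_mul]
      abel
    rw [← h3]
    exact (Unitary.isUnit_coe (U := u)).mul h2
  have hww' : w * star w = 1 := by
    obtain ⟨v, hv⟩ := hunit
    have h1 : star w = ((v⁻¹ : Aˣ) : A) := by
      calc star w = star w * (w * ((v⁻¹ : Aˣ) : A)) := by rw [← hv, Units.mul_inv, mul_one]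
        _ = ((v⁻¹ : Aˣ) : A) := by rw [← mul_assoc, hww, one_mul]
    rw [h1, ← hv, Units.mul_inv]
  exact ⟨⟨w, hww, hww'⟩, mul_mem hb hrB, huw⟩

end Pool.Agent.Helper29.GA
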