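import Pool.Agent.Helper29.GA.Top

set_option autoImplicit false

/-! # The approximation rank of the orbits along a sequence of times -/

namespace Pool.Agent.Helper29.GA

open Finset Filter Topology
open scoped CStarAlgebra ComplexOrder

universe u v

variable {A : Type u} [NonUnitalCStarAlgebra A] [PartialOrder A] [StarOrderedRing A]
  {K : Type v} [NormedAddCommGroup K] [InnerProductSpace ℂ K] [CompleteSpace K]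

/-- `rcp(Ω, δ) ≤ k`: there are contractive completely positive maps `φ : A → M_k` and `ψ : M_k → B(K)` with
`‖ψ(φ(a)) - π(a)‖ < δ` for all `a` in `Ω` -/
def Rcp (π : A →⋆ₙₐ[ℂ] (K →L[ℂ] K)) (Ω : Set A) (δ : ℝ) (k : ℕ) : Prop :=
  ∃ (φ : A →CP CStarMatrix (Fin k) (Fin k) ℂ) (ψ : CStarMatrix (Fin k) (Fin k) ℂ →CP (K →L[ℂ] K)),
    (∀ a, ‖φ a‖ ≤ ‖a‖) ∧ (∀ b, ‖ψ b‖ ≤ ‖b‖) ∧ ∀ a ∈ Ω, ‖ψ (φ a) - π a‖ < δ

/-- the union of `Ω, α(Ω), …, αⁿ⁻¹(Ω)` -/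
def orb (α : A ≃⋆ₐ[ℂ] A) (Ω : Set A) (n : ℕ) : Set A := {a | ∃ x ∈ Ω, ∃ j < n, a = (α ^ j) x}

/-- the slow automorphisms -/
def Slow (π : A →⋆ₙₐ[ℂ] (K →L[ℂ] K)) (g : ℕ → ℕ) (α : A ≃⋆ₐ[ℂ] A) : Prop :=
  ∀ Ω : Set A, Ω.Finite → ∀ δ : ℝ, 0 < δ → ∀ n0 : ℕ, ∃ n ≥ n0, ∃ k ≤ g n, Rcp π (orb α Ω n) δ k

lemma norm_pi (π : A →⋆ₙₐ[ℂ] (K →L[ℂ] K)) (a : A) : ‖π a‖ ≤ ‖a‖ := NonUnitalStarAlgHom.norm_apply_le π a

/-- the slow automorphisms on a sequence -/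
def G2 (π : A →⋆ₙₐ[ℂ] (K →L[ℂ] K)) (g : ℕ → ℕ) (d : ℕ → A) : Set (A ≃⋆ₐ[ℂ] A) :=
  ⋂ (N : ℕ) (m : ℕ) (n0 : ℕ), ⋃ (n : ℕ) (_ : n ≥ n0) (k : ℕ) (_ : k ≤ g n)
    (φ : A →CP CStarMatrix (Fin k) (Fin k) ℂ) (ψ : CStarMatrix (Fin k) (Fin k) ℂ →CP (K →L[ℂ] K))
    (_ : (∀ a, ‖φ a‖ ≤ ‖a‖) ∧ ∀ b, ‖ψ b‖ ≤ ‖b‖),
    ⋂ i ∈ range N, ⋂ j ∈ range n, {α : A ≃⋆ₐ[ℂ] A | ‖ψ (φ ((α ^ j) (d i))) - π ((α ^ j) (d i))‖ < 1 / ((m : ℝ) + 1)}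

lemma mem_G2 (π : A →⋆ₙₐ[ℂ] (K →L[ℂ] K)) (g : ℕ → ℕ) (d : ℕ → A) (α : A ≃⋆ₐ[ℂ] A) : α ∈ G2 π g d ↔
    ∀ N m n0 : ℕ, ∃ n ≥ n0, ∃ k ≤ g n, Rcp π (orb α (d '' (Set.Iio N)) n) (1 / ((m : ℝ) + 1)) k := by
  unfold G2 Rcp orb
  simp only [Set.mem_iInter, Set.mem_iUnion, Set.mem_setOf_eq, mem_range]
  refine forall_congr' fun N => forall_congr' fun m => forall_congr' fun n0 => exists_congr fun n => ?_
  constructor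
  · rintro ⟨hn, k, hk, φ, ψ, ⟨h1, h2⟩, h3⟩
    refine ⟨hn, k, hk, φ, ψ, h1, h2, ?_⟩
    rintro a ⟨_, ⟨i, hi, rfl⟩, j, hj, rfl⟩
    exact h3 i hi j hj
  · rintro ⟨hn, k, hk, φ, ψ, h1, h2, h3⟩
    exact ⟨hn, k, hk, φ, ψ, ⟨h1, h2⟩, fun i hi j hj => h3 _ ⟨d i, ⟨i, hi, rfl⟩, j, hj, rfl⟩⟩

attribute [local instance] pointNorm

lemma G2_isGδ (π : A →⋆ₙₐ[ℂ] (K →L[ℂ] K)) (g : ℕ → ℕ) (d : ℕ → A) : IsGδ (G2 π g d) := by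
  refine IsGδ.iInter fun N => IsGδ.iInter fun m => IsGδ.iInter fun n0 => IsOpen.isGδ ?_
  refine isOpen_iUnion fun n => isOpen_iUnion fun _ => isOpen_iUnion fun k => isOpen_iUnion fun _ =>
    isOpen_iUnion fun φ => isOpen_iUnion fun ψ => isOpen_iUnion fun h => ?_
  refine isOpen_biInter_finset fun i _ => isOpen_biInter_finset fun j _ => ?_
  have hc : Continuous fun a : A => ψ (φ a) - π a := by
    have h1 : Continuous fun a : A => ψ (φ a) := by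
      refine (LipschitzWith.of_dist_le_mul (K := 1) fun a b => ?_).continuous
      rw [dist_eq_norm, dist_eq_norm, ← map_sub, ← map_sub, NNReal.coe_one, one_mul]
      exact (h.2 _).trans (h.1 _)
    have h2 : Continuous fun a : A => π a := by
      refine (LipschitzWith.of_dist_le_mul (K := 1) fun a b => ?_).continuous
      rw [dist_eq_norm, dist_eq_norm, ← map_sub, NNReal.coe_one, one_mul]
      exact norm_pi π _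
    exact h1.sub h2
  exact isOpen_lt (hc.comp (continuous_pow_eval j (d i))).norm continuous_const

/-- periodic automorphisms are slow if `π` is nuclear -/
lemma periodic_G2 (π : A →⋆ₙₐ[ℂ] (K →L[ℂ] K)) (hπ : ∀ Ω : Set A, Ω.Finite → ∀ δ : ℝ, 0 < δ → ∃ k, Rcp π Ω δ k)
    (g : ℕ → ℕ) (hg : Tendsto g atTop atTop) (d : ℕ → A) (α : A ≃⋆ₐ[ℂ] A) (hα : ∃ q ≥ 1, α ^ q = 1) :
    α ∈ G2 π g d := by
  obtain ⟨q, hq, hα⟩ := hα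
  rw [mem_G2]
  intro N m n0
  have hper : ∀ (j : ℕ) (x : A), (α ^ j) x = (α ^ (j % q)) x := by
    intro j x
    conv_lhs => rw [← Nat.mod_add_div j q, pow_add, pow_mul, hα, one_pow, mul_one]
  have hfin : (orb α (d '' (Set.Iio N)) q).Finite := by
    have : orb α (d '' (Set.Iio N)) q = ⋃ j ∈ Set.Iio q, (fun x => (α ^ j) x) '' (d '' (Set.Iio N)) := by
      ext a
      simp only [orb, Set.mem_setOf_eq, Set.mem_iUnion, Set.mem_image, Set.mem_Iio]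
      constructor
      · rintro ⟨x, hx, j, hj, rfl⟩
        exact ⟨j, hj, x, hx, rfl⟩
      · rintro ⟨j, hj, x, hx, rfl⟩
        exact ⟨x, hx, j, hj, rfl⟩
    rw [this]
    exact (Set.finite_Iio q).biUnion fun j _ => (((Set.finite_Iio N).image _).image _)
  obtain ⟨k, φ, ψ, h1, h2, h3⟩ := hπ _ hfin (1 / ((m : ℝ) + 1)) (by positivity)
  obtain ⟨n1, hn1⟩ := eventually_atTop.1 (hg.eventually_ge_atTop k)
  refine ⟨max n0 n1, le_max_left _ _, k, hn1 _ (le_max_right _ _), φ, ψ, h1, h2, ?_⟩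
  rintro a ⟨x, hx, j, _, rfl⟩
  rw [hper]
  exact h3 _ ⟨x, hx, j % q, Nat.mod_lt _ (by omega), rfl⟩

lemma slow_of_G2 (π : A →⋆ₙₐ[ℂ] (K →L[ℂ] K)) (g : ℕ → ℕ) (d : ℕ → A) (hd : DenseRange d) (α : A ≃⋆ₐ[ℂ] A)
    (h : α ∈ G2 π g d) : Slow π g α := by
  rw [mem_G2] at h
  intro Ω hΩ δ hδ n0
  obtain ⟨m, hm⟩ := exists_nat_one_div_lt (show 0 < δ / 3 by positivity)
  have h1 : ∀ x : A, ∃ i, ‖x - d i‖ < δ / 3 := by
    intro x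
    obtain ⟨i, hi⟩ := Metric.denseRange_iff.1 hd x (δ / 3) (by positivity)
    exact ⟨i, by rwa [dist_eq_norm] at hi⟩
  choose ι hι using h1
  obtain ⟨N, hN⟩ : ∃ N, ∀ x ∈ Ω, ι x < N := by
    obtain ⟨N, hN⟩ := (hΩ.image ι).bddAbove
    exact ⟨N + 1, fun x hx => Nat.lt_succ_of_le (hN ⟨x, hx, rfl⟩)⟩
  obtain ⟨n, hn, k, hk, φ, ψ, h2, h3, h4⟩ := h N m n0
  refine ⟨n, hn, k, hk, φ, ψ, h2, h3, ?_⟩
  rintro _ ⟨x, hx, j, hj, rfl⟩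
  have h5 := h4 _ ⟨d (ι x), ⟨ι x, hN x hx, rfl⟩, j, hj, rfl⟩
  have e1 : ψ (φ ((α ^ j) x)) - π ((α ^ j) x) = ψ (φ ((α ^ j) (x - d (ι x)))) +
      (ψ (φ ((α ^ j) (d (ι x)))) - π ((α ^ j) (d (ι x)))) - π ((α ^ j) (x - d (ι x))) := by
    rw [map_sub, map_sub, map_sub, map_sub]
    abel
  have h6 : ‖(α ^ j) (x - d (ι x))‖ < δ / 3 := by
    rw [norm_pow]; exact hι x
  rw [e1]
  have h7 : ‖ψ (φ ((α ^ j) (x - d (ι x)))) +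
      (ψ (φ ((α ^ j) (d (ι x)))) - π ((α ^ j) (d (ι x)))) - π ((α ^ j) (x - d (ι x)))‖ ≤
      ‖(α ^ j) (x - d (ι x))‖ + ‖ψ (φ ((α ^ j) (d (ι x)))) - π ((α ^ j) (d (ι x)))‖ + ‖(α ^ j) (x - d (ι x))‖ :=
    (norm_sub_le _ _).trans (add_le_add ((norm_add_le _ _).trans (add_le_add ((h3 _).trans (h2 _)) le_rfl))
      (norm_pi π _))
  linarith

end Pool.Agent.Helper29.GA
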