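import Pool.Agent.Helper29.PR.Crit

set_option autoImplicit false

/-! # Sums over short arithmetic progressions with a twist, of a fixed modulus -/

namespace Pool.Agent.Helper29.GA

open Finset Complex
open Pool.Agent.Results.MP_7a8f48_an Pool.Agent.Results.MP_7a8f48_an.InvariantSpectraHalf

/-- `e(t) = exp(2 π i t)` -/
noncomputable def ee (t : ℝ) : ℂ := Complex.exp (2 * Real.pi * Complex.I * t)

lemma ee_add (s t : ℝ) : ee (s + t) = ee s * ee t := by
  unfold ee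
  rw [← Complex.exp_add]
  congr 1
  push_cast
  ring

lemma ee_norm (t : ℝ) : ‖ee t‖ = 1 := by
  unfold ee
  have : (2 * Real.pi * Complex.I * t : ℂ) = ((2 * Real.pi * t : ℝ) : ℂ) * Complex.I := by
    push_cast; ring
  rw [this, Complex.norm_exp_ofReal_mul_I]

lemma ee_zero : ee 0 = 1 := by simp [ee]

lemma ee_nat_mul (n : ℕ) (t : ℝ) : ee (n * t) = ee t ^ n := by
  unfold ee
  rw [← Complex.exp_nat_mul]
  congr 1
  push_cast
  ring

/-- window sums of length `H` at one frequency -/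
theorem windows {f : ℕ → ℤ} (hf : ∀ n, |f n| ≤ 1) (hS : Iso f) (ε : ℝ) (hε : 0 < ε) :
    ∃ H0 : ℕ, ∀ H ≥ H0, ∀ N ≥ H, ∀ θ : ℝ,
      ∑ n ∈ range N, ‖∑ m ∈ Ioc n (n + H), (f m : ℂ) * ee (m * θ)‖ ^ 2 ≤ ε * H ^ 2 * N := by
  have h1 : NormDisjoint (1 : ℂ ≃⋆ₐ[ℂ] ℂ) f 1 := by
    refine norm_of hf hS _ {1} (fun φ hp hi x _ => ?_) 1 (subset_closure (Submodule.subset_span rfl))
    refine Pool.Agent.Helper29.PR.smallAt_self _ φ hp hi x 0 0 0 (by norm_num) (by norm_num)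
      fun n hn δ _ _ => ⟨⊤, inferInstance, ?_, fun h => ((1 : ℂ ≃⋆ₐ[ℂ] ℂ) ^ h) x, fun _ _ => Submodule.mem_top, ?_⟩
    · simp
    · simp
      positivity
  obtain ⟨H0, h2⟩ := (h1 ε hε).1
  refine ⟨H0, fun H hH N hN θ => ?_⟩
  have h3 := h2 H hH N hN θ
  unfold windowSquares orbitSum twistedSum at h3
  have e1 : ∀ n : ℕ, ∑ m ∈ Ioc n (n + H), ((f m : ℂ) * Complex.exp (2 * Real.pi * Complex.I * m * θ)) •
      ((1 : ℂ ≃⋆ₐ[ℂ] ℂ) ^ m) 1 = ∑ m ∈ Ioc n (n + H), (f m : ℂ) * ee (m * θ) := by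
    intro n
    refine sum_congr rfl fun m _ => ?_
    simp only [one_pow, StarAlgEquiv.one_apply, smul_eq_mul, mul_one, ee]
    congr 2
    push_cast
    ring
  simp_rw [e1] at h3
  have e2 : ∀ z : ℂ, star z * z = ((‖z‖ ^ 2 : ℝ) : ℂ) := by
    intro z
    rw [Complex.star_def, ← Complex.normSq_eq_conj_mul_self, Complex.normSq_eq_norm_sq]
  simp_rw [e2] at h3
  rw [← Complex.ofReal_sum, Complex.norm_real, Real.norm_eq_abs, abs_of_nonneg (by positivity)] at h3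
  exact h3

/-- the same in mean -/
theorem windows1 {f : ℕ → ℤ} (hf : ∀ n, |f n| ≤ 1) (hS : Iso f) (ε : ℝ) (hε : 0 < ε) :
    ∃ H0 : ℕ, ∀ H ≥ H0, ∀ N ≥ H, ∀ θ : ℝ,
      ∑ n ∈ range N, ‖∑ m ∈ Ioc n (n + H), (f m : ℂ) * ee (m * θ)‖ ≤ ε * H * N := by
  obtain ⟨H0, h⟩ := windows hf hS (ε ^ 2) (by positivity)
  refine ⟨H0, fun H hH N hN θ => ?_⟩
  have h1 := h H hH N hN θ
  set w : ℕ → ℝ := fun n => ‖∑ m ∈ Ioc n (n + H), (f m : ℂ) * ee (m * θ)‖ with hw
  have h2 : (∑ n ∈ range N, w n) ^ 2 ≤ N * ∑ n ∈ range N, w n ^ 2 := by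
    have := sq_sum_le_card_mul_sum_sq (s := range N) (f := w)
    simpa using this
  have h3 : (∑ n ∈ range N, w n) ^ 2 ≤ (ε * H * N) ^ 2 := by
    calc (∑ n ∈ range N, w n) ^ 2 ≤ N * ∑ n ∈ range N, w n ^ 2 := h2
      _ ≤ N * (ε ^ 2 * H ^ 2 * N) := by gcongr
      _ = (ε * H * N) ^ 2 := by ring
  exact le_of_sq_le_sq h3 (by positivity)

/-- orthogonality -/
lemma ortho (q : ℕ) (hq : 1 ≤ q) (s : ℕ) :
    ∑ a ∈ range q, ee (s * ((a : ℝ) / q)) = if q ∣ s then (q : ℂ) else 0 := by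
  have hq0 : (q : ℝ) ≠ 0 := by positivity
  have e1 : ∀ a : ℕ, ee (s * ((a : ℝ) / q)) = (ee ((s : ℝ) / q)) ^ a := by
    intro a
    rw [← ee_nat_mul]
    congr 1
    field_simp
  simp_rw [e1]
  have e2 : (ee ((s : ℝ) / q)) ^ q = 1 := by
    rw [← ee_nat_mul, mul_div_cancel₀ _ hq0]
    have : ee (s : ℝ) = ee 1 ^ s := by rw [← ee_nat_mul, mul_one]
    rw [this]
    have : ee 1 = 1 := by
      unfold ee
      simp
    rw [this, one_pow]
  split_ifs with h
  · obtain ⟨r, rfl⟩ := h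
    have : ee (((q * r : ℕ) : ℝ) / q) = 1 := by
      have : ((q * r : ℕ) : ℝ) / q = (r : ℝ) * 1 := by
        push_cast
        field_simp
      rw [this, ee_nat_mul]
      have : ee 1 = 1 := by
        unfold ee
        simp
      rw [this, one_pow]
    rw [this]
    simp
  · have hne : ee ((s : ℝ) / q) ≠ 1 := by
      intro h1
      apply h
      unfold ee at h1
      rw [Complex.exp_eq_one_iff] at h1
      obtain ⟨n, hn⟩ := h1
      have hpi : (2 * Real.pi * Complex.I : ℂ) ≠ 0 := by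
        simp [Real.pi_ne_zero]
      have h2 : (((s : ℝ) / q : ℝ) : ℂ) = n := by
        have h3 : (2 * Real.pi * Complex.I : ℂ) * (((s : ℝ) / q : ℝ) : ℂ) = (2 * Real.pi * Complex.I : ℂ) * n := by
          rw [hn]; ring
        exact mul_left_cancel₀ hpi h3
      have h4 : ((s : ℝ) / q : ℝ) = n := by exact_mod_cast h2
      have h5 : (s : ℝ) = n * q := by field_simp at h4; linarith
      have h6 : (s : ℤ) = n * q := by exact_mod_cast h5
      have h7 : (q : ℤ) ∣ s := ⟨n, by rw [h6]; ring⟩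
      exact_mod_cast h7
    have := geom_sum_eq hne q
    rw [this, e2, sub_self, zero_div]

lemma prog_eq (g : ℕ → ℂ) (q : ℕ) (hq : 1 ≤ q) (k H : ℕ) :
    ∑ j ∈ Icc 1 H, g (k + j * q) = ∑ t ∈ Ioc k (k + q * H), if q ∣ (t - k) then g t else 0 := by
  rw [← sum_filter]
  symm
  refine sum_nbij' (fun t => (t - k) / q) (fun j => k + j * q) ?_ ?_ ?_ ?_ ?_
  · intro t ht
    simp only [mem_filter, mem_Ioc] at ht
    obtain ⟨⟨h1, h2⟩, r, hr⟩ := ht
    have h3 : (t - k) / q = r := by rw [hr]; exact Nat.mul_div_cancel_left r (by omega)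
    simp only [mem_Icc, h3]
    have h4 : q * r ≤ q * H := by omega
    have h5 : 0 < q * r := by omega
    exact ⟨Nat.pos_of_mul_pos_left h5 |> fun h => by
      rcases Nat.eq_zero_or_pos r with h0 | h0
      · simp [h0] at h5
      · exact h0, Nat.le_of_mul_le_mul_left h4 (by omega)⟩
  · intro j hj
    simp only [mem_Icc] at hj
    simp only [mem_filter, mem_Ioc]
    have h1 : 0 < j * q := Nat.mul_pos (by omega) (by omega)
    have h2 : j * q ≤ q * H := by rw [Nat.mul_comm]; exact Nat.mul_le_mul_left q hj.2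
    refine ⟨⟨by omega, by omega⟩, ?_⟩
    rw [Nat.add_sub_cancel_left]
    exact Dvd.intro_left j rfl
  · intro t ht
    simp only [mem_filter, mem_Ioc] at ht
    obtain ⟨⟨h1, h2⟩, h3⟩ := ht
    rw [Nat.div_mul_cancel h3]
    omega
  · intro j hj
    rw [Nat.add_sub_cancel_left]
    exact Nat.mul_div_cancel j (by omega)
  · intro t ht
    simp only [mem_filter, mem_Ioc] at ht
    obtain ⟨⟨h1, h2⟩, h3⟩ := ht
    rw [Nat.div_mul_cancel h3]
    congr 1
    omega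

/-- the sums over the short progressions `k + j q`, `1 ≤ j ≤ H`, with a twist -/
theorem progs {f : ℕ → ℤ} (hf : ∀ n, |f n| ≤ 1) (hS : Iso f) (q : ℕ) (hq : 1 ≤ q) (ε : ℝ) (hε : 0 < ε) :
    ∃ H0 : ℕ, ∀ H ≥ H0, ∀ N ≥ q * H, ∀ θ : ℝ,
      ∑ k ∈ range N, ‖∑ j ∈ Icc 1 H, (f (k + j * q) : ℂ) * ee (j * q * θ)‖ ≤ ε * H * N := by
  obtain ⟨H0, h⟩ := windows1 hf hS (ε / q) (by positivity)
  refine ⟨H0, fun H hH N hN θ => ?_⟩
  have hq0 : (q : ℝ) ≠ 0 := by positivity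
  have hqC : (q : ℂ) ≠ 0 := by exact_mod_cast (by omega : q ≠ 0)
  have hH2 : q * H ≥ H0 := le_trans hH (Nat.le_mul_of_pos_left H (by omega))
  have key : ∀ k : ℕ, ∑ j ∈ Icc 1 H, (f (k + j * q) : ℂ) * ee (j * q * θ) =
      (1 / (q : ℂ)) * ∑ a ∈ range q, ee (-(k * (θ + (a : ℝ) / q))) *
        ∑ t ∈ Ioc k (k + q * H), (f t : ℂ) * ee (t * (θ + (a : ℝ) / q)) := by
    intro k
    have e1 := prog_eq (fun t => (f t : ℂ) * ee (((t - k : ℕ) : ℝ) * θ)) q hq k H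
    have e2 : ∑ j ∈ Icc 1 H, (f (k + j * q) : ℂ) * ee (j * q * θ) =
        ∑ j ∈ Icc 1 H, (fun t => (f t : ℂ) * ee (((t - k : ℕ) : ℝ) * θ)) (k + j * q) := by
      refine sum_congr rfl fun j _ => ?_
      simp only
      rw [Nat.add_sub_cancel_left]
      push_cast
      ring_nf
    rw [e2, e1, mul_sum]
    have e3 : ∀ t ∈ Ioc k (k + q * H), (if q ∣ (t - k) then (f t : ℂ) * ee (((t - k : ℕ) : ℝ) * θ) else 0) =
        ∑ a ∈ range q, (1 / (q : ℂ)) * (ee (-(k * (θ + (a : ℝ) / q))) * ((f t : ℂ) * ee (t * (θ + (a : ℝ) / q)))) := by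
      intro t ht
      have e4 : ∀ a : ℕ, (1 / (q : ℂ)) * (ee (-(k * (θ + (a : ℝ) / q))) * ((f t : ℂ) * ee (t * (θ + (a : ℝ) / q)))) =
          ((1 / (q : ℂ)) * ((f t : ℂ) * ee (((t - k : ℕ) : ℝ) * θ))) * ee (((t - k : ℕ) : ℝ) * ((a : ℝ) / q)) := by
        intro a
        have e5 : ee (-(k * (θ + (a : ℝ) / q))) * ee (t * (θ + (a : ℝ) / q)) =
            ee (((t - k : ℕ) : ℝ) * θ) * ee (((t - k : ℕ) : ℝ) * ((a : ℝ) / q)) := by
          rw [← ee_add, ← ee_add]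
          congr 1
          rw [Nat.cast_sub (by have := mem_Ioc.1 ht; omega)]
          ring
        calc (1 / (q : ℂ)) * (ee (-(k * (θ + (a : ℝ) / q))) * ((f t : ℂ) * ee (t * (θ + (a : ℝ) / q)))) =
            (1 / (q : ℂ)) * (f t : ℂ) * (ee (-(k * (θ + (a : ℝ) / q))) * ee (t * (θ + (a : ℝ) / q))) := by ring
          _ = _ := by rw [e5]; ring
      simp_rw [e4]
      rw [← mul_sum, ortho q hq]
      split_ifs
      · field_simp
      · simp
    rw [sum_congr rfl e3, sum_comm]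
    refine sum_congr rfl fun a _ => ?_
    rw [mul_sum, mul_sum]
  calc ∑ k ∈ range N, ‖∑ j ∈ Icc 1 H, (f (k + j * q) : ℂ) * ee (j * q * θ)‖
      ≤ ∑ k ∈ range N, ∑ a ∈ range q, (1 / (q : ℝ)) *
          ‖∑ t ∈ Ioc k (k + q * H), (f t : ℂ) * ee (t * (θ + (a : ℝ) / q))‖ := by
        refine sum_le_sum fun k _ => ?_
        rw [key k, norm_mul, norm_div, norm_one, Complex.norm_natCast, ← mul_sum]
        gcongr
        refine (norm_sum_le _ _).trans (sum_le_sum fun a _ => ?_)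
        rw [norm_mul, ee_norm, one_mul]
    _ = ∑ a ∈ range q, (1 / (q : ℝ)) * ∑ k ∈ range N,
          ‖∑ t ∈ Ioc k (k + q * H), (f t : ℂ) * ee (t * (θ + (a : ℝ) / q))‖ := by
        rw [sum_comm]
        refine sum_congr rfl fun a _ => ?_
        rw [mul_sum]
    _ ≤ ∑ a ∈ range q, (1 / (q : ℝ)) * (ε / q * ((q * H : ℕ) : ℝ) * N) := by
        refine sum_le_sum fun a _ => ?_
        gcongr
        exact h (q * H) hH2 N hN _
    _ = ε * H * N := by
        rw [sum_const, card_range, nsmul_eq_mul]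
        push_cast
        field_simp

end Pool.Agent.Helper29.GA
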