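import Mathlib

set_option autoImplicit false

/-! # Unitaries of finite order -/

namespace Pool.Agent.Helper29.GA

open Complex

universe u

variable {A : Type u} [CStarAlgebra A]

/-- real rank zero: the self-adjoint elements of finite spectrum are dense in the self-adjoint elements -/
def RealRankZero (A : Type u) [CStarAlgebra A] : Prop :=
  ∀ h : A, IsSelfAdjoint h → ∀ ε : ℝ, 0 < ε → ∃ k : A, IsSelfAdjoint k ∧ (spectrum ℝ k).Finite ∧ ‖h - k‖ < ε

lemma finite_complex {k : A} (hk : IsSelfAdjoint k) (h : (spectrum ℝ k).Finite) : (spectrum ℂ k).Finite := by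
  have := hk.spectrumRestricts.algebraMap_image
  rw [← this]
  exact h.image _

/-- rounding to the multiples of `2 π / Q` -/
noncomputable def rd (Q : ℕ) (t : ℝ) : ℝ := 2 * Real.pi / Q * ⌊t * Q / (2 * Real.pi)⌋

lemma rd_near (Q : ℕ) (hQ : 1 ≤ Q) (t : ℝ) : |rd Q t - t| ≤ 2 * Real.pi / Q := by
  have hp := Real.pi_pos
  have hQ0 : (0 : ℝ) < Q := by exact_mod_cast hQ
  have h1 := Int.floor_le (t * Q / (2 * Real.pi))
  have h2 := Int.lt_floor_add_one (t * Q / (2 * Real.pi))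
  have h3 : rd Q t - t = 2 * Real.pi / Q * ((⌊t * Q / (2 * Real.pi)⌋ : ℝ) - t * Q / (2 * Real.pi)) := by
    unfold rd
    field_simp
  rw [h3, abs_mul, abs_of_pos (by positivity : (0 : ℝ) < 2 * Real.pi / Q)]
  have h4 : |(⌊t * Q / (2 * Real.pi)⌋ : ℝ) - t * Q / (2 * Real.pi)| ≤ 1 := by
    rw [abs_le]
    constructor <;> linarith
  calc 2 * Real.pi / Q * |(⌊t * Q / (2 * Real.pi)⌋ : ℝ) - t * Q / (2 * Real.pi)| ≤ 2 * Real.pi / Q * 1 := by gcongr
    _ = _ := mul_one _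

lemma rd_exp (Q : ℕ) (hQ : 1 ≤ Q) (t : ℝ) : Complex.exp (I * (rd Q t : ℝ)) ^ Q = 1 := by
  have hQ0 : (Q : ℂ) ≠ 0 := by exact_mod_cast (by omega : Q ≠ 0)
  rw [← Complex.exp_nat_mul]
  have : (Q : ℂ) * (I * (rd Q t : ℝ)) = (⌊t * Q / (2 * Real.pi)⌋ : ℤ) * (2 * Real.pi * I) := by
    unfold rd
    push_cast
    field_simp
  rw [this]
  exact Complex.exp_int_mul_two_pi_mul_I _

/-- a self-adjoint element of finite spectrum is near one whose exponential has finite order -/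
lemma exists_round {k : A} (hk : IsSelfAdjoint k) (h : (spectrum ℝ k).Finite) (ε : ℝ) (hε : 0 < ε) :
    ∃ k' : selfAdjoint A, ‖k - k'‖ < ε ∧ ∃ Q : ℕ, 1 ≤ Q ∧ (selfAdjoint.expUnitary k') ^ Q = 1 := by
  have hfin := finite_complex hk h
  obtain ⟨Q, hQ⟩ := exists_nat_gt (2 * Real.pi / ε)
  have hp := Real.pi_pos
  have hQ1 : 1 ≤ Q := by
    have : (0 : ℝ) < Q := lt_trans (by positivity) hQ
    exact_mod_cast this
  have hQ0 : (0 : ℝ) < Q := by exact_mod_cast hQ1
  have hn : IsStarNormal k := hk.isStarNormal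
  set g : ℂ → ℂ := fun z => ((rd Q z.re : ℝ) : ℂ) with hg
  have hc : ∀ φ : ℂ → ℂ, ContinuousOn φ (spectrum ℂ k) := fun φ => hfin.continuousOn φ
  have hsa : IsSelfAdjoint (cfc g k) := by
    rw [IsSelfAdjoint, ← cfc_star]
    refine cfc_congr fun z _ => ?_
    simp [hg, Complex.conj_ofReal]
  refine ⟨⟨cfc g k, hsa⟩, ?_, Q, hQ1, ?_⟩
  · have e1 : k - cfc g k = cfc (fun z => z - g z) k := by
      rw [cfc_sub (fun z => z) g k (hc _) (hc _), cfc_id' ℂ k]
    show ‖k - cfc g k‖ < ε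
    rw [e1]
    refine lt_of_le_of_lt (norm_cfc_le (c := 2 * Real.pi / Q) (by positivity) fun z hz => ?_) ?_
    · have hre : z = (z.re : ℂ) := hk.mem_spectrum_eq_re hz
      have : z - g z = ((z.re - rd Q z.re : ℝ) : ℂ) := by
        conv_lhs => rw [hre]
        simp [hg]
      rw [this, Complex.norm_real, Real.norm_eq_abs, abs_sub_comm]
      exact rd_near Q hQ1 _
    · rw [div_lt_iff₀ hQ0]
      rw [div_lt_iff₀ hε] at hQ
      linarith
  · ext
    rw [SubmonoidClass.coe_pow, selfAdjoint.expUnitary_coe]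
    show (NormedSpace.exp (I • cfc g k)) ^ Q = 1
    have e1 : NormedSpace.exp (I • cfc g k) = cfc (fun z => Complex.exp (I * g z)) k := by
      rw [← cfc_smul I g k (hc _), ← CFC.exp_eq_normedSpace_exp (𝕜 := ℂ) (IsStarNormal.cfc_map _ _)]
      rw [← cfc_comp' _ (fun z => I • g z) k (NormedSpace.exp_continuous.continuousOn) (hc _)]
      refine cfc_congr fun z _ => ?_
      simp only [smul_eq_mul, Complex.exp_eq_exp_ℂ]
    rw [e1, ← cfc_pow _ Q k (hc _)]
    have e2 : cfc (fun z => Complex.exp (I * g z) ^ Q) k = cfc (fun _ : ℂ => (1 : ℂ)) k :=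
      cfc_congr fun z _ => rd_exp Q hQ1 _
    rw [e2, cfc_const_one ℂ k]

end Pool.Agent.Helper29.GA
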