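import Pool.Agent.Helper29.GA.NT

set_option autoImplicit false

/-! # Sequences which are nearly periodic for a long time -/

namespace Pool.Agent.Helper29.GA

open Finset
open Pool.Agent.Results.MP_7a8f48_an Pool.Agent.Results.MP_7a8f48_an.InvariantSpectraHalf

variable {X : Type*} [NormedAddCommGroup X] [NormedSpace ℂ X]

/-- `H` is a bound for the weight `f`: the sums over the progressions of modulus `q` and length `H q m` are small -/
def Bound (f : ℕ → ℤ) (H : ℕ → ℕ → ℕ) : Prop :=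
  ∀ q m : ℕ, 1 ≤ q → 1 ≤ H q m ∧ ∃ N0 : ℕ, ∀ N ≥ N0, ∀ θ : ℝ,
    ∑ k ∈ range N, ‖∑ j ∈ Icc 1 (H q m), (f (k + j * q) : ℂ) * ee (j * q * θ)‖ ≤ 1 / ((m : ℝ) + 1) * H q m * N

/-- there is a common bound for two weights, which is monotone in the second variable -/
theorem exists_bound {f g : ℕ → ℤ} (hf : ∀ n, |f n| ≤ 1) (hS : Iso f) (hg : ∀ n, |g n| ≤ 1) (hT : Iso g) :
    ∃ H : ℕ → ℕ → ℕ, (∀ q, Monotone (H q)) ∧ Bound f H ∧ Bound g H := by
  have h : ∀ q m : ℕ, ∃ H : ℕ, 1 ≤ q → ∀ K ≥ H,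
      (∃ N0 : ℕ, ∀ N ≥ N0, ∀ θ : ℝ,
        ∑ k ∈ range N, ‖∑ j ∈ Icc 1 K, (f (k + j * q) : ℂ) * ee (j * q * θ)‖ ≤ 1 / ((m : ℝ) + 1) * K * N) ∧
      (∃ N0 : ℕ, ∀ N ≥ N0, ∀ θ : ℝ,
        ∑ k ∈ range N, ‖∑ j ∈ Icc 1 K, (g (k + j * q) : ℂ) * ee (j * q * θ)‖ ≤ 1 / ((m : ℝ) + 1) * K * N) := by
    intro q m
    rcases Nat.eq_zero_or_pos q with h0 | h0
    · exact ⟨0, fun h => by omega⟩
    obtain ⟨H1, h1⟩ := progs hf hS q h0 (1 / ((m : ℝ) + 1)) (by positivity)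
    obtain ⟨H2, h2⟩ := progs hg hT q h0 (1 / ((m : ℝ) + 1)) (by positivity)
    refine ⟨max H1 H2, fun _ K hK => ⟨⟨_, fun N hN θ => h1 _ ?_ N hN θ⟩, ⟨_, fun N hN θ => h2 _ ?_ N hN θ⟩⟩⟩
    · exact le_trans (le_max_left _ _) hK
    · exact le_trans (le_max_right _ _) hK
  choose H hH using h
  refine ⟨fun q m => 1 + ∑ i ∈ range (m + 1), H q i, fun q m n hmn => ?_, fun q m hq => ⟨by simp, ?_⟩,
    fun q m hq => ⟨by simp, ?_⟩⟩
  · refine Nat.add_le_add_left (sum_le_sum_of_subset ?_) 1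
    exact range_subset_range.2 (by omega)
  · refine (hH q m hq _ ?_).1
    exact (single_le_sum (f := fun i => H q i) (fun i _ => Nat.zero_le _) (mem_range.2 (Nat.lt_succ_self m))).trans
      (Nat.le_add_left _ 1)
  · refine (hH q m hq _ ?_).2
    exact (single_le_sum (f := fun i => H q i) (fun i _ => Nat.zero_le _) (mem_range.2 (Nat.lt_succ_self m))).trans
      (Nat.le_add_left _ 1)

/-- one window -/
lemma one_window {f : ℕ → ℤ} (hf : ∀ n, |f n| ≤ 1) (y : ℕ → X) (B δ : ℝ) (hB : ∀ n, ‖y n‖ ≤ B)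
    (q H : ℕ) (hH : 1 ≤ H) (hy : ∀ n, ∀ j ∈ Icc 1 H, ‖y (n + j * q) - y n‖ ≤ δ) (n L : ℕ) (θ : ℝ) :
    (H : ℝ) * ‖∑ t ∈ Ioc n (n + L), ((f t : ℂ) * ee (t * θ)) • y t‖ ≤
      2 * q * H ^ 2 * B + H * L * δ +
        B * ∑ t ∈ Ioc n (n + L), ‖∑ j ∈ Icc 1 H, (f (t + j * q) : ℂ) * ee (j * q * θ)‖ := by
  set c : ℕ → X := fun t => ((f t : ℂ) * ee (t * θ)) • y t with hc
  have hB0 : 0 ≤ B := (norm_nonneg _).trans (hB 0)
  have hf' : ∀ t, ‖(f t : ℂ)‖ ≤ 1 := fun t => by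
    rw [Complex.norm_intCast]
    exact_mod_cast hf t
  have hcB : ∀ t, ‖c t‖ ≤ B := fun t => by
    rw [hc]
    simp only
    rw [norm_smul, norm_mul, ee_norm, mul_one]
    calc ‖(f t : ℂ)‖ * ‖y t‖ ≤ 1 * B := mul_le_mul (hf' t) (hB t) (norm_nonneg _) zero_le_one
      _ = B := one_mul B
  have hwin : ∀ a b : ℕ, ‖∑ t ∈ Ioc a (a + b), c t‖ ≤ b * B := fun a b => by
    refine (norm_sum_le _ _).trans ?_
    refine (sum_le_sum fun t _ => hcB t).trans ?_
    simp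
  -- shift by `j q`
  have h1 : ∀ j ∈ Icc 1 H, ‖∑ t ∈ Ioc n (n + L), c t - ∑ t ∈ Ioc n (n + L), c (t + j * q)‖ ≤ 2 * q * H * B := by
    intro j hj
    have e1 : ∑ t ∈ Ioc n (n + L), c (t + j * q) = ∑ t ∈ Ioc (n + j * q) (n + L + j * q), c t := by
      rw [← map_add_right_Ioc, sum_map]
      rfl
    have e2 : ∑ t ∈ Ioc n (n + L), c t + ∑ t ∈ Ioc (n + L) (n + L + j * q), c t =
        ∑ t ∈ Ioc n (n + j * q), c t + ∑ t ∈ Ioc (n + j * q) (n + L + j * q), c t := by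
      rw [sum_Ioc_consecutive _ (by omega) (by omega), sum_Ioc_consecutive _ (by omega) (by omega)]
    have e3 : ∑ t ∈ Ioc n (n + L), c t - ∑ t ∈ Ioc n (n + L), c (t + j * q) =
        ∑ t ∈ Ioc n (n + j * q), c t - ∑ t ∈ Ioc (n + L) (n + L + j * q), c t := by
      rw [e1, sub_eq_sub_iff_add_eq_add]
      rw [e2]
    rw [e3]
    refine (norm_sub_le _ _).trans ?_
    have f1 := hwin n (j * q)
    have f2 := hwin (n + L) (j * q)
    have f3 : ((j * q : ℕ) : ℝ) ≤ (H : ℝ) * q := by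
      have := Nat.mul_le_mul_right q (mem_Icc.1 hj).2
      exact_mod_cast this
    nlinarith [mul_le_mul_of_nonneg_right f3 hB0]
  -- replace `y (t + j q)` by `y t`
  have h2 : ∀ j ∈ Icc 1 H, ‖∑ t ∈ Ioc n (n + L), c (t + j * q) -
      ∑ t ∈ Ioc n (n + L), ((f (t + j * q) : ℂ) * ee (j * q * θ)) • (ee (t * θ) • y t)‖ ≤ L * δ := by
    intro j hj
    rw [← sum_sub_distrib]
    refine (norm_sum_le _ _).trans ?_
    refine (sum_le_sum (g := fun _ => δ) fun t _ => ?_).trans (by simp)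
    have e1 : c (t + j * q) - ((f (t + j * q) : ℂ) * ee (j * q * θ)) • (ee (t * θ) • y t) =
        ((f (t + j * q) : ℂ) * ee ((t + j * q : ℕ) * θ)) • (y (t + j * q) - y t) := by
      rw [smul_sub, hc, smul_smul]
      congr 2
      rw [mul_assoc, ← ee_add]
      congr 2
      push_cast
      ring
    rw [e1, norm_smul, norm_mul, ee_norm, mul_one]
    calc ‖(f (t + j * q) : ℂ)‖ * ‖y (t + j * q) - y t‖ ≤ 1 * δ :=
          mul_le_mul (hf' _) (hy t j hj) (norm_nonneg _) zero_le_one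
      _ = δ := one_mul δ
  -- the sum over `j` of the main terms
  have h3 : ‖∑ j ∈ Icc 1 H, ∑ t ∈ Ioc n (n + L), ((f (t + j * q) : ℂ) * ee (j * q * θ)) • (ee (t * θ) • y t)‖ ≤
      B * ∑ t ∈ Ioc n (n + L), ‖∑ j ∈ Icc 1 H, (f (t + j * q) : ℂ) * ee (j * q * θ)‖ := by
    rw [sum_comm, mul_sum]
    refine (norm_sum_le _ _).trans (sum_le_sum fun t _ => ?_)
    rw [← sum_smul, norm_smul, norm_smul, ee_norm, one_mul, mul_comm]
    exact mul_le_mul_of_nonneg_right (hB t) (norm_nonneg _)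
  have h4 : (H : ℝ) * ‖∑ t ∈ Ioc n (n + L), c t‖ = ‖∑ j ∈ Icc 1 H, ∑ t ∈ Ioc n (n + L), c t‖ := by
    rw [sum_const, Nat.card_Icc, Nat.add_sub_cancel, ← Nat.cast_smul_eq_nsmul ℂ, norm_smul, Complex.norm_natCast]
  rw [h4]
  have h5 : ∑ j ∈ Icc 1 H, ∑ t ∈ Ioc n (n + L), c t =
      ∑ j ∈ Icc 1 H, (∑ t ∈ Ioc n (n + L), c t - ∑ t ∈ Ioc n (n + L), c (t + j * q)) +
      ∑ j ∈ Icc 1 H, (∑ t ∈ Ioc n (n + L), c (t + j * q) -
        ∑ t ∈ Ioc n (n + L), ((f (t + j * q) : ℂ) * ee (j * q * θ)) • (ee (t * θ) • y t)) +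
      ∑ j ∈ Icc 1 H, ∑ t ∈ Ioc n (n + L), ((f (t + j * q) : ℂ) * ee (j * q * θ)) • (ee (t * θ) • y t) := by
    rw [← sum_add_distrib, ← sum_add_distrib]
    refine sum_congr rfl fun j _ => ?_
    abel
  rw [h5]
  refine (norm_add_le _ _).trans (add_le_add ((norm_add_le _ _).trans (add_le_add ?_ ?_)) h3)
  · refine (norm_sum_le _ _).trans ((sum_le_sum h1).trans (le_of_eq ?_))
    rw [sum_const, Nat.card_Icc, Nat.add_sub_cancel, nsmul_eq_mul]
    ring
  · refine (norm_sum_le _ _).trans ((sum_le_sum h2).trans (le_of_eq ?_))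
    rw [sum_const, Nat.card_Icc, Nat.add_sub_cancel, nsmul_eq_mul]
    ring

/-- nearly periodic sequences are disjoint from `f` -/
theorem rigid {f : ℕ → ℤ} (hf : ∀ n, |f n| ≤ 1) {H : ℕ → ℕ → ℕ} (hH : Bound f H) (y : ℕ → X) (B : ℝ)
    (hB : ∀ n, ‖y n‖ ≤ B)
    (hy : ∀ m : ℕ, ∃ q ≥ 1, ∀ n, ∀ j ∈ Icc 1 (H q m), ‖y (n + j * q) - y n‖ ≤ 1 / ((m : ℝ) + 1))
    (ε : ℝ) (hε : 0 < ε) : ∃ L0 : ℕ, ∀ L ≥ L0, ∀ N ≥ L, ∀ θ : ℝ,
      ∑ n ∈ range N, ‖∑ t ∈ Ioc n (n + L), ((f t : ℂ) * ee (t * θ)) • y t‖ ≤ ε * L * N ∧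
      ‖∑ t ∈ Icc 1 N, ((f t : ℂ) * ee (t * θ)) • y t‖ ≤ ε * N := by
  have hB0 : 0 ≤ B := (norm_nonneg _).trans (hB 0)
  obtain ⟨m, hm⟩ := exists_nat_one_div_lt (show 0 < ε / (6 * (B + 1)) by positivity)
  obtain ⟨q, hq, h1⟩ := hy m
  obtain ⟨h2, N0, h3⟩ := hH q m hq
  set K : ℕ := H q m with hK
  set δ : ℝ := 1 / ((m : ℝ) + 1) with hδ
  have hδ0 : 0 < δ := by positivity
  have hδ1 : δ * (B + 1) ≤ ε / 6 := by
    have : δ < ε / (6 * (B + 1)) := hm
    rw [lt_div_iff₀ (by positivity)] at this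
    linarith
  have hK0 : (0 : ℝ) < K := by exact_mod_cast h2
  obtain ⟨L1, hL1⟩ := exists_nat_ge (2 * q * K * B * (6 / ε))
  refine ⟨max 1 (max L1 N0), fun L hL N hN θ => ?_⟩
  have hL0 : (1 : ℝ) ≤ L := by exact_mod_cast le_trans (le_max_left _ _) hL
  have hL2 : 2 * q * K * B ≤ ε / 6 * L := by
    have e1 : (L1 : ℝ) ≤ L := by exact_mod_cast le_trans (le_trans (le_max_left _ _) (le_max_right 1 _)) hL
    have e2 : 2 * q * K * B * (6 / ε) ≤ L := hL1.trans e1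
    have e3 : 2 * q * K * B = ε / 6 * (2 * q * K * B * (6 / ε)) := by field_simp
    rw [e3]
    gcongr
  have hN1 : N0 ≤ N := le_trans (le_trans (le_trans (le_max_right _ _) (le_max_right 1 _)) hL) hN
  have hNL : (L : ℝ) ≤ N := by exact_mod_cast hN
  set A : ℕ → ℝ := fun t => ‖∑ j ∈ Icc 1 K, (f (t + j * q) : ℂ) * ee (j * q * θ)‖ with hA
  have hA0 : ∀ t, 0 ≤ A t := fun t => norm_nonneg _
  have h6 := fun n L => one_window hf y B δ hB q K h2 h1 n L θ
  constructor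
  · have h4 : ∑ n ∈ range N, ∑ t ∈ Ioc n (n + L), A t ≤ L * ∑ t ∈ range (N + L), A t := by
      have e1 : ∀ n ∈ range N, ∑ t ∈ Ioc n (n + L), A t = ∑ i ∈ Ioc 0 L, A (n + i) := by
        intro n _
        rw [show Ioc n (n + L) = (Ioc 0 L).map (addLeftEmbedding n) by rw [map_add_left_Ioc, add_zero], sum_map]
        rfl
      rw [sum_congr rfl e1, sum_comm]
      have e2 : ∀ i ∈ Ioc 0 L, ∑ n ∈ range N, A (n + i) ≤ ∑ t ∈ range (N + L), A t := by
        intro i hi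
        have e3 : ∑ n ∈ range N, A (n + i) = ∑ t ∈ (range N).map (addRightEmbedding i), A t := by
          rw [sum_map]; rfl
        rw [e3]
        refine sum_le_sum_of_subset_of_nonneg ?_ fun t _ _ => hA0 t
        intro t ht
        rw [mem_map] at ht
        obtain ⟨n, hn, rfl⟩ := ht
        have e4 := mem_range.1 hn
        have e5 := (mem_Ioc.1 hi).2
        rw [mem_range]
        show n + i < N + L
        omega
      refine (sum_le_sum e2).trans (le_of_eq ?_)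
      rw [sum_const, Nat.card_Ioc, nsmul_eq_mul]
      simp
    have h5 : ∑ t ∈ range (N + L), A t ≤ δ * K * (2 * N) := by
      refine (h3 (N + L) (by omega) θ).trans ?_
      push_cast
      have : (N : ℝ) + L ≤ 2 * N := by linarith
      gcongr
    have h7 : (K : ℝ) * ∑ n ∈ range N, ‖∑ t ∈ Ioc n (n + L), ((f t : ℂ) * ee (t * θ)) • y t‖ ≤ K * (ε * L * N) := by
      rw [mul_sum]
      refine (sum_le_sum fun n _ => h6 n L).trans ?_
      rw [sum_add_distrib, sum_const, card_range, nsmul_eq_mul, ← mul_sum]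
      have e1 : B * ∑ n ∈ range N, ∑ t ∈ Ioc n (n + L), A t ≤ B * (L * (δ * K * (2 * N))) := by
        gcongr
        exact h4.trans (by gcongr)
      have hNK : 0 ≤ (N : ℝ) * K := by positivity
      have hNKL : 0 ≤ (N : ℝ) * K * L := by positivity
      have e2 : (N : ℝ) * (2 * q * K ^ 2 * B) ≤ N * K * (ε / 6 * L) := by
        have := mul_le_mul_of_nonneg_left hL2 hNK
        linarith
      have e3 : δ ≤ ε / 6 := by nlinarith
      have e4 : (N : ℝ) * (K * L * δ) ≤ N * K * L * (ε / 6) := by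
        have := mul_le_mul_of_nonneg_left e3 hNKL
        linarith
      have e5 : δ * B ≤ ε / 6 := by nlinarith
      have e6 : B * (L * (δ * K * (2 * N))) ≤ N * K * L * (ε / 6) * 2 := by
        have := mul_le_mul_of_nonneg_left e5 hNKL
        linarith
      have e7 : 0 ≤ ε * L * N * K := by positivity
      nlinarith
    exact le_of_mul_le_mul_left h7 hK0
  · have e0 : Icc 1 N = Ioc 0 (0 + N) := by
      ext t
      simp only [mem_Icc, mem_Ioc]
      omega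
    rw [e0]
    have h7 : (K : ℝ) * ‖∑ t ∈ Ioc 0 (0 + N), ((f t : ℂ) * ee (t * θ)) • y t‖ ≤ K * (ε * N) := by
      refine (h6 0 N).trans ?_
      have h8 : ∑ t ∈ Ioc 0 (0 + N), A t ≤ δ * K * (2 * N) := by
        refine le_trans ?_ (le_trans (h3 (N + 1) (by omega) θ) ?_)
        · refine sum_le_sum_of_subset_of_nonneg ?_ fun t _ _ => hA0 t
          intro t ht
          have := mem_Ioc.1 ht
          rw [mem_range]
          omega
        · push_cast
          have : (N : ℝ) + 1 ≤ 2 * N := by linarith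
          gcongr
      have e1 : B * ∑ t ∈ Ioc 0 (0 + N), A t ≤ B * (δ * K * (2 * N)) := by gcongr
      have hNK : 0 ≤ (N : ℝ) * K := by positivity
      have e2 : 2 * q * (K : ℝ) ^ 2 * B ≤ K * (ε / 6 * N) := by
        have e3 : 2 * q * K * B ≤ ε / 6 * N := hL2.trans (by gcongr)
        have := mul_le_mul_of_nonneg_left e3 hK0.le
        linarith
      have e3 : δ ≤ ε / 6 := by nlinarith
      have e4 : (K : ℝ) * N * δ ≤ N * K * (ε / 6) := by
        have := mul_le_mul_of_nonneg_left e3 hNK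
        linarith
      have e5 : δ * B ≤ ε / 6 := by nlinarith
      have e6 : B * (δ * K * (2 * N)) ≤ N * K * (ε / 6) * 2 := by
        have := mul_le_mul_of_nonneg_left e5 hNK
        linarith
      have e7 : 0 ≤ ε * N * K := by positivity
      nlinarith
    exact le_of_mul_le_mul_left h7 hK0

end Pool.Agent.Helper29.GA
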