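import Pool.Agent.Helper29.GA.Rigid

set_option autoImplicit false

/-! # The topology of pointwise norm convergence on the automorphisms -/

namespace Pool.Agent.Helper29.GA

open Finset Filter Topology
open Pool.Agent.Results.MP_7a8f48_an Pool.Agent.Results.MP_7a8f48_an.InvariantSpectraHalf

universe u

variable {A : Type u} [NonUnitalCStarAlgebra A]

/-- pointwise convergence in norm -/
@[reducible] def pointNorm (A : Type u) [NonUnitalCStarAlgebra A] : TopologicalSpace (A ≃⋆ₐ[ℂ] A) :=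
  TopologicalSpace.induced (fun (α : A ≃⋆ₐ[ℂ] A) (x : A) => α x) Pi.topologicalSpace

lemma norm_pow (α : A ≃⋆ₐ[ℂ] A) (n : ℕ) (x : A) : ‖(α ^ n) x‖ = ‖x‖ :=
  NonUnitalStarAlgHom.norm_map ((α ^ n : A ≃⋆ₐ[ℂ] A) : A →⋆ₙₐ[ℂ] A) (α ^ n).injective x

lemma norm_aut (α : A ≃⋆ₐ[ℂ] A) (x : A) : ‖α x‖ = ‖x‖ :=
  NonUnitalStarAlgHom.norm_map (α : A →⋆ₙₐ[ℂ] A) α.injective x

attribute [local instance] pointNorm

lemma continuous_eval (x : A) : Continuous (fun α : A ≃⋆ₐ[ℂ] A => α x) :=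
  (continuous_apply x).comp continuous_induced_dom

lemma continuous_pow_eval (n : ℕ) (x : A) : Continuous (fun α : A ≃⋆ₐ[ℂ] A => (α ^ n) x) := by
  induction n with
  | zero => simpa using continuous_const
  | succ n ih =>
      rw [continuous_iff_continuousAt]
      intro α
      have h1 : Tendsto (fun β : A ≃⋆ₐ[ℂ] A => ‖(β ^ n) x - (α ^ n) x‖ + ‖β ((α ^ n) x) - α ((α ^ n) x)‖) (𝓝 α)
          (𝓝 (0 + 0)) := by
        refine Tendsto.add ?_ ?_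
        · have := (ih.sub (continuous_const (y := (α ^ n) x))).norm.tendsto α
          simpa using this
        · have := ((continuous_eval ((α ^ n) x)).sub (continuous_const (y := α ((α ^ n) x)))).norm.tendsto α
          simpa using this
      rw [add_zero] at h1
      show Tendsto (fun β : A ≃⋆ₐ[ℂ] A => (β ^ (n + 1)) x) (𝓝 α) (𝓝 ((α ^ (n + 1)) x))
      rw [tendsto_iff_norm_sub_tendsto_zero]
      refine squeeze_zero (fun _ => norm_nonneg _) (fun β => ?_) h1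
      have e1 : ∀ γ : A ≃⋆ₐ[ℂ] A, (γ ^ (n + 1)) x = γ ((γ ^ n) x) := fun γ => by
        rw [pow_succ']; rfl
      rw [e1, e1]
      calc ‖β ((β ^ n) x) - α ((α ^ n) x)‖ =
          ‖β ((β ^ n) x - (α ^ n) x) + (β ((α ^ n) x) - α ((α ^ n) x))‖ := by
            rw [map_sub]; congr 1; abel
        _ ≤ ‖β ((β ^ n) x - (α ^ n) x)‖ + ‖β ((α ^ n) x) - α ((α ^ n) x)‖ := norm_add_le _ _
        _ = _ := by rw [norm_aut]

/-- the automorphisms which are nearly periodic on `D`, for the bound `H` -/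
def Good (D : Set A) (H : ℕ → ℕ → ℕ) : Set (A ≃⋆ₐ[ℂ] A) :=
  {α | ∀ x ∈ D, ∀ m : ℕ, ∃ q ≥ 1, ∀ j ∈ Icc 1 (H q m), ‖(α ^ (j * q)) x - x‖ < 1 / ((m : ℝ) + 1)}

lemma good_isGδ (D : Set A) (hD : D.Countable) (H : ℕ → ℕ → ℕ) : IsGδ (Good D H) := by
  have e : Good D H = ⋂ x ∈ D, ⋂ m : ℕ, ⋃ q ∈ {q : ℕ | q ≥ 1}, ⋂ j ∈ Icc 1 (H q m),
      {α : A ≃⋆ₐ[ℂ] A | ‖(α ^ (j * q)) x - x‖ < 1 / ((m : ℝ) + 1)} := by
    ext α
    simp [Good]
  rw [e]
  refine IsGδ.biInter hD fun x _ => IsGδ.iInter fun m => IsOpen.isGδ ?_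
  refine isOpen_biUnion fun q _ => ?_
  refine isOpen_biInter_finset fun j _ => ?_
  exact isOpen_lt ((continuous_pow_eval (j * q) x).sub continuous_const).norm continuous_const

lemma periodic_good (D : Set A) (H : ℕ → ℕ → ℕ) (α : A ≃⋆ₐ[ℂ] A) (h : ∃ q ≥ 1, α ^ q = 1) : α ∈ Good D H := by
  obtain ⟨q, hq, h⟩ := h
  intro x _ m
  refine ⟨q, hq, fun j _ => ?_⟩
  rw [mul_comm, pow_mul, h, one_pow]
  simp
  positivity

/-- the orbit of `x` is disjoint from `f` in norm, uniformly in the twist -/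
def NDis (α : A ≃⋆ₐ[ℂ] A) (f : ℕ → ℤ) (x : A) : Prop :=
  ∀ ε : ℝ, 0 < ε → ∃ L0 : ℕ, ∀ L ≥ L0, ∀ N ≥ L, ∀ θ : ℝ,
    ∑ n ∈ range N, ‖∑ t ∈ Ioc n (n + L), ((f t : ℂ) * ee (t * θ)) • (α ^ t) x‖ ≤ ε * L * N ∧
      ‖∑ t ∈ Icc 1 N, ((f t : ℂ) * ee (t * θ)) • (α ^ t) x‖ ≤ ε * N

lemma ndis_of_good {f : ℕ → ℤ} (hf : ∀ n, |f n| ≤ 1) {H : ℕ → ℕ → ℕ} (hH : Bound f H) {D : Set A}
    {α : A ≃⋆ₐ[ℂ] A} (hα : α ∈ Good D H) (x : A) (hx : x ∈ D) : NDis α f x := by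
  intro ε hε
  refine rigid hf hH (fun t => (α ^ t) x) ‖x‖ (fun n => (norm_pow α n x).le) (fun m => ?_) ε hε
  obtain ⟨q, hq, h⟩ := hα x hx m
  refine ⟨q, hq, fun n j hj => ?_⟩
  have e1 : (α ^ (n + j * q)) x - (α ^ n) x = (α ^ n) ((α ^ (j * q)) x - x) := by
    rw [map_sub, pow_add]; rfl
  rw [e1, norm_pow]
  exact (h j hj).le

/-- the set of the elements whose orbit is disjoint from `f` is closed -/
lemma ndis_closure {f : ℕ → ℤ} (hf : ∀ n, |f n| ≤ 1) {α : A ≃⋆ₐ[ℂ] A} {x : A}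
    (hx : ∀ ε : ℝ, 0 < ε → ∃ y : A, NDis α f y ∧ ‖x - y‖ ≤ ε) : NDis α f x := by
  intro ε hε
  obtain ⟨y, hy, hxy⟩ := hx (ε / 2) (by positivity)
  obtain ⟨L0, h⟩ := hy (ε / 2) (by positivity)
  have hs : ∀ (S : Finset ℕ) (θ : ℝ), ‖∑ t ∈ S, ((f t : ℂ) * ee (t * θ)) • (α ^ t) x‖ ≤
      ‖∑ t ∈ S, ((f t : ℂ) * ee (t * θ)) • (α ^ t) y‖ + S.card * (ε / 2) := by
    intro S θ
    have e1 : ∑ t ∈ S, ((f t : ℂ) * ee (t * θ)) • (α ^ t) x = ∑ t ∈ S, ((f t : ℂ) * ee (t * θ)) • (α ^ t) y +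
        ∑ t ∈ S, ((f t : ℂ) * ee (t * θ)) • (α ^ t) (x - y) := by
      rw [← sum_add_distrib]
      refine sum_congr rfl fun t _ => ?_
      rw [← smul_add, ← map_add]
      congr 2
      abel
    rw [e1]
    refine (norm_add_le _ _).trans (add_le_add le_rfl ?_)
    refine (norm_sum_le _ _).trans ?_
    refine (sum_le_sum (g := fun _ => ε / 2) fun t _ => ?_).trans (by simp)
    rw [norm_smul, norm_mul, ee_norm, mul_one, norm_pow, Complex.norm_intCast]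
    calc |((f t : ℤ) : ℝ)| * ‖x - y‖ ≤ 1 * (ε / 2) :=
          mul_le_mul (by exact_mod_cast hf t) hxy (norm_nonneg _) zero_le_one
      _ = ε / 2 := one_mul _
  refine ⟨L0, fun L hL N hN θ => ?_⟩
  obtain ⟨h1, h2⟩ := h L hL N hN θ
  constructor
  · refine (sum_le_sum fun n _ => hs _ θ).trans ?_
    rw [sum_add_distrib]
    have e1 : ∑ n ∈ range N, ((Ioc n (n + L)).card : ℝ) * (ε / 2) = ε / 2 * L * N := by
      simp
      ring
    rw [e1]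
    linarith
  · refine (hs _ θ).trans ?_
    have e1 : ((Icc 1 N).card : ℝ) * (ε / 2) = ε / 2 * N := by
      simp
      ring
    rw [e1]
    linarith

lemma ndis_of_dense {f : ℕ → ℤ} (hf : ∀ n, |f n| ≤ 1) {α : A ≃⋆ₐ[ℂ] A} {D : Set A} (hD : Dense D)
    (h : ∀ x ∈ D, NDis α f x) (x : A) : NDis α f x := by
  refine ndis_closure hf fun ε hε => ?_
  obtain ⟨y, hy, hxy⟩ := Metric.mem_closure_iff.1 (hD x) ε hε
  exact ⟨y, h y hy, by rw [← dist_eq_norm]; exact hxy.le⟩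

end Pool.Agent.Helper29.GA
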